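import Pool.Agent.N282.PM.All

/-!
# Montgomery's `ℓ^q` conjecture for almost every perturbation of the integers

Let `U_n` be independent and uniform on `[0,1]` and let `0 < δ_n ≤ 1` decay more slowly than every power of `n` (for
instance `δ_n = 1 / log (n + 2)`). Almost surely the statement of Q1 holds, for all `q ≥ 2` and all `A ≥ 1`, with the
numbers `n + δ_n U_n` in place of the integers `n`, even for all coefficients with `∑ |b_n|² ≤ N + 1` (which contains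
the case `|b_n| ≤ 1`). There is no hypothesis. Parts were formalised by helpers 477, 593, 394, 615, 954, 11, 592.
-/

set_option autoImplicit false

open MeasureTheory Filter Topology

namespace Pool.Agent.Results.MP_2a1f0e_nt.PerturbedIntegers

/-- The Dirichlet polynomial `∑_{N ≤ n ≤ 2N} b_n x_n^{it}` with the numbers `x_n` in place of the integers `n`. -/
noncomputable def D (x : ℕ → ℝ) (b : ℕ → ℂ) (N : ℕ) (t : ℝ) : ℂ :=
  ∑ n ∈ Finset.Icc N (2 * N), b n * Complex.exp (Complex.I * t * Real.log (x n))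

/-- Almost surely, for all `q ≥ 2`, `A ≥ 1`, `ε > 0` there is `K` such that
`∑_{t ≤ T} |D(t)|^q ≤ K N^ε (N^q + N^(q/2) T)` for all `1 ≤ N ≤ T ≤ N^A` and all `b` with `∑ |b_n|² ≤ N + 1`. -/
theorem result {Ω : Type} [MeasurableSpace Ω] (P : Measure Ω) [IsProbabilityMeasure P] (U : ℕ → Ω → ℝ)
    (hm : ∀ n, Measurable (U n)) (hi : ProbabilityTheory.iIndepFun U P)
    (hU : ∀ n, P.map (U n) = volume.restrict (Set.Icc 0 1)) (δ : ℕ → ℝ) (hδ : ∀ n, 0 < δ n ∧ δ n ≤ 1)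
    (hδ' : ∀ ε : ℝ, 0 < ε → ∃ c : ℝ, 0 < c ∧ ∀ n : ℕ, 1 ≤ n → c * (n : ℝ) ^ (-ε) ≤ δ n) :
    ∀ᵐ ω ∂P, ∀ q A ε : ℝ, 2 ≤ q → 1 ≤ A → 0 < ε → ∃ K : ℝ, ∀ N T : ℕ, 1 ≤ N → N ≤ T → (T : ℝ) ≤ (N : ℝ) ^ A →
      ∀ b : ℕ → ℂ, ∑ n ∈ Finset.Icc N (2 * N), ‖b n‖ ^ 2 ≤ N + 1 →
        ∑ t ∈ Finset.Icc 1 T, ‖D (fun n => n + δ n * U n ω) b N t‖ ^ q ≤
          K * (N : ℝ) ^ ε * ((N : ℝ) ^ q + (N : ℝ) ^ (q / 2) * T) := by
  filter_upwards [Pool.Agent.N282.PM.a_AS Ω _ P inferInstance U (fun n => (n : ℝ)) δ 1 hm hi hU le_rfl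
    Pool.Agent.N282.PM.spread_id hδ hδ'] with ω hω
  intro q A ε hq hA hε
  obtain ⟨K, hK⟩ := Pool.Agent.N282.PM.t_LQ _ hω q A ε hq hA hε
  exact ⟨K, fun N T hN hNT hT b hb => hK N T hN hNT hT b hb⟩

end Pool.Agent.Results.MP_2a1f0e_nt.PerturbedIntegers
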