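import Pool.Agent.N282.PM.All
import Pool.Agent.N282.PM.Beu2

/-!
# Moments of Dirichlet polynomials over generalised integers with randomly perturbed primes

Replace every prime `p` by `ξ_p = p + δ_p U_p`, `U_p` independent and uniform on `[0,1]`, `0 < δ_p ≤ 1` decaying more
slowly than every power of `p`, and every integer `n = ∏ p^k` by the generalised integer `x_n = ∏ ξ_p^k` of Beurling.
Almost surely, for all `q ≥ 2`, `A ≥ 1`, `θ > 0` and all coefficients supported on the integers in `[N, 2N]` which have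
a prime factor `> N^θ`, the sum of `|D(t)|^q` over `t ≤ T` is at most `C N^ε (N^q + N^((1-θ/2) q) T)` for
`N ≤ T ≤ N^A`. The case `θ = 1` (coefficients supported on the primes) is the bound of Q1; for every `θ` the bound is
the one of Q1, `C N^(q+ε)`, if `q ≥ 2A/θ`. There is no hypothesis. Parts of the project were formalised by helpers 477,
593, 394, 615, 954, 11, 592.
-/

set_option autoImplicit false

open MeasureTheory Filter Topology

namespace Pool.Agent.Results.MP_2a1f0e_nt.RandomPrimes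

/-- The generalised integers: `z ξ n = ∏ ξ_p^k` if `n = ∏ p^k`. -/
noncomputable def z (ξ : ℕ → ℝ) (n : ℕ) : ℝ := n.factorization.prod fun p k => ξ p ^ k

/-- The Dirichlet polynomial `∑_{N ≤ n ≤ 2N} b_n x_n^{it}` with the numbers `x_n` in place of the integers `n`. -/
noncomputable def D (x : ℕ → ℝ) (b : ℕ → ℂ) (N : ℕ) (t : ℝ) : ℂ :=
  ∑ n ∈ Finset.Icc N (2 * N), b n * Complex.exp (Complex.I * t * Real.log (x n))

/-- Almost surely: for all `q ≥ 2`, `A ≥ 1`, `θ, ε > 0` there is `K` such that for all `2 ≤ N ≤ T ≤ N^A` and all `b_n`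
with `∑ |b_n|² ≤ N + 1` and `b_n = 0` unless `n` has a prime factor `> N^θ` one has
`∑_{t ≤ T} |∑_{N ≤ n ≤ 2N} b_n x_n^{it}|^q ≤ K N^ε (N^q + N^((1-θ/2) q) T)`. -/
theorem result {Ω : Type} [MeasurableSpace Ω] (P : Measure Ω) [IsProbabilityMeasure P] (U : ℕ → Ω → ℝ)
    (hm : ∀ n, Measurable (U n)) (hi : ProbabilityTheory.iIndepFun U P)
    (hU : ∀ n, P.map (U n) = volume.restrict (Set.Icc 0 1)) (δ : ℕ → ℝ) (hδ : ∀ n, 0 < δ n ∧ δ n ≤ 1)
    (hδ' : ∀ ε : ℝ, 0 < ε → ∃ c : ℝ, 0 < c ∧ ∀ n : ℕ, 1 ≤ n → c * (n : ℝ) ^ (-ε) ≤ δ n) :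
    ∀ᵐ ω ∂P, ∀ q A θ ε : ℝ, 2 ≤ q → 1 ≤ A → 0 < θ → 0 < ε → ∃ K : ℝ, ∀ N T : ℕ, 2 ≤ N → N ≤ T →
      (T : ℝ) ≤ (N : ℝ) ^ A → ∀ b : ℕ → ℂ, ∑ n ∈ Finset.Icc N (2 * N), ‖b n‖ ^ 2 ≤ N + 1 →
        (∀ n, b n ≠ 0 → ∃ p : ℕ, p.Prime ∧ p ∣ n ∧ (N : ℝ) ^ θ < p) →
        ∑ t ∈ Finset.Icc 1 T, ‖D (z fun p => p + δ p * U p ω) b N t‖ ^ q ≤
          K * (N : ℝ) ^ ε * ((N : ℝ) ^ q + (N : ℝ) ^ ((1 - θ / 2) * q) * T) := by
  have hpos : ∀ᵐ ω ∂P, ∀ n, 0 ≤ U n ω := by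
    rw [ae_all_iff]
    intro n
    have h1 : ∀ᵐ u ∂(P.map (U n)), 0 ≤ u := by
      rw [hU n]
      exact (ae_restrict_mem measurableSet_Icc).mono fun u hu => hu.1
    exact ae_of_ae_map (hm n).aemeasurable h1
  filter_upwards [Pool.Agent.N282.PM.a_AS Ω _ P inferInstance U (fun n => (n : ℝ)) δ 1 hm hi hU le_rfl
    Pool.Agent.N282.PM.spread_id hδ hδ', hpos] with ω hω hω'
  intro q A θ ε hq hA hθ hε
  obtain ⟨K, hK⟩ := Pool.Agent.N282.PM.Beu_LQ _ hω (fun p hp => by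
    have h1 : (0 : ℝ) < p := by exact_mod_cast hp.pos
    have h2 := (hδ p).1
    have h3 := hω' p
    show 0 < (p : ℝ) + δ p * U p ω
    positivity) q A θ ε hq hA hθ hε
  exact ⟨K, fun N T hN hNT hT b hb hsupp => hK N T hN hNT hT b hb (fun n _ hn => hsupp n hn)⟩

end Pool.Agent.Results.MP_2a1f0e_nt.RandomPrimes
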