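import Pool.Agent.N793.LV.SupZO

set_option autoImplicit false

/-!
# Montgomery's `ℓ^q` conjecture: weights, automatic gain, and deletion

`D b t = ∑_{N ≤ n ≤ 2N} b n n^{it}`, `Mom q N T b = ∑_{1 ≤ t ≤ T} |D b t|^q`.

For every `q ≥ 2` the maximal moment `P(u) = max {Mom b : |b n| ≤ u n}` is superadditive in `u`.
Hence any bound `M` for all coefficients with `|b n| ≤ 1` improves itself to
`Mom b ≤ q M ∑ w n |b n|` with a probability weight `w` on `[N, 2N]`.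

For fixed `q ≥ 2`, `A` and `0 < η < 1` the assertion of Q1 is equivalent to

* the weighted inequality `Mom b ≤ K N^ε (N^q + T N^(q/2)) ∑ w n |b n|`, `w` depending on `N`, `T`;
* the inequality with the linear gain `∑ |b n| / |S|` for all coefficients supported on a subset `G`
  of any given `S ⊆ [N, 2N]`, after deletion of at most `θ |S|` elements;
* the inequality for the sums `∑_{n ∈ R} n^{it}` over all subsets `R` of some `G ⊆ S` with at least
  `η |S|` elements, for every nonempty `S ⊆ [N, 2N]`.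
-/

namespace Pool.Agent.Results.MP_2a1f0e_nt.SubsetDeletion

open Finset Pool.Agent.N793.LV.Sup

/-- the Dirichlet polynomial `∑_{N ≤ n ≤ 2N} b n n^{it}` -/
noncomputable def D (N : ℕ) (b : ℕ → ℂ) (t : ℕ) : ℂ :=
  ∑ n ∈ Icc N (2 * N), b n * Complex.exp (Complex.I * (t : ℂ) * ((Real.log (n : ℝ) : ℝ) : ℂ))

/-- the moment `∑_{1 ≤ t ≤ T} |D(t)|^q` -/
noncomputable def Mom (q : ℝ) (N T : ℕ) (b : ℕ → ℂ) : ℝ := ∑ t ∈ Icc 1 T, ‖D N b t‖ ^ q

/-- the right-hand side of the conjecture, `N^q + N^(q/2) T` -/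
noncomputable def rhs (q : ℝ) (N T : ℕ) : ℝ := (N : ℝ) ^ q + (N : ℝ) ^ (q / 2) * (T : ℝ)

/-- `P ε K N T` holds for every `ε > 0`, some `K` and all `1 ≤ N ≤ T ≤ N^A` -/
def Unif (A : ℝ) (P : ℝ → ℝ → ℕ → ℕ → Prop) : Prop :=
  ∀ ε : ℝ, 0 < ε → ∃ K : ℝ, ∀ N T : ℕ, 1 ≤ N → N ≤ T → (T : ℝ) ≤ (N : ℝ) ^ A → P ε K N T

/-- the assertion of Q1 for the exponents `q` and `A` -/
def Q1 (q A : ℝ) : Prop := Unif A fun ε K N T => ∀ b : ℕ → ℂ, (∀ n, ‖b n‖ ≤ 1) →
  Mom q N T b ≤ K * (N : ℝ) ^ ε * rhs q N T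

/-- weighted form -/
def Weighted (q A : ℝ) : Prop := Unif A fun ε K N T => ∃ w : ℕ → ℝ, (∀ n, 0 ≤ w n) ∧
  ∑ n ∈ Icc N (2 * N), w n = 1 ∧ ∀ b : ℕ → ℂ, (∀ n, ‖b n‖ ≤ 1) →
    Mom q N T b ≤ K * (N : ℝ) ^ ε * rhs q N T * ∑ n ∈ Icc N (2 * N), w n * ‖b n‖

/-- linear gain after deletion -/
def Gain (q A : ℝ) : Prop := Unif A fun ε K N T => ∀ S ⊆ Icc N (2 * N), S.Nonempty →
  ∀ θ : ℝ, 0 < θ → ∃ G ⊆ S, ((S \ G).card : ℝ) ≤ θ * S.card ∧
    ∀ b : ℕ → ℂ, (∀ n, ‖b n‖ ≤ 1) → (∀ n, n ∉ G → b n = 0) →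
      Mom q N T b ≤ K * (N : ℝ) ^ ε * rhs q N T * ((∑ n ∈ G, ‖b n‖) / (θ * S.card))

open Classical in
/-- every `S` has a part `G` of proportion at least `η` such that the inequality holds for the sums
over all subsets of `G` -/
def Deletion (η q A : ℝ) : Prop := Unif A fun ε K N T => ∀ S ⊆ Icc N (2 * N), S.Nonempty →
  ∃ G ⊆ S, η * S.card ≤ G.card ∧ ∀ R ⊆ G,
    Mom q N T (fun n => if n ∈ R then 1 else 0) ≤ K * (N : ℝ) ^ ε * rhs q N T

/-- the matrix -/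
noncomputable def E (t n : ℕ) : ℂ :=
  Complex.exp (Complex.I * (t : ℂ) * ((Real.log (n : ℝ) : ℝ) : ℂ))

theorem Mom_eq (q : ℝ) (N T : ℕ) (b : ℕ → ℂ) :
    Mom q N T b = Ph (Icc 1 T) (Icc N (2 * N)) E q b := rfl

theorem rhs_nonneg (q : ℝ) (N T : ℕ) : 0 ≤ rhs q N T := by unfold rhs; positivity

theorem Unif.mono {A : ℝ} {P P' : ℝ → ℝ → ℕ → ℕ → Prop} (f : ℝ → ℝ)
    (h : ∀ ε K N T, 0 < ε → 1 ≤ N → P ε K N T → P' ε (f K) N T) (hP : Unif A P) : Unif A P' := by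
  intro ε hε
  obtain ⟨K, hK⟩ := hP ε hε
  exact ⟨f K, fun N T hN hNT hTA => h ε K N T hε hN (hK N T hN hNT hTA)⟩

theorem Icc_ne (N : ℕ) : (Icc N (2 * N)).Nonempty := ⟨N, by simp; omega⟩

/-- any bound improves itself -/
theorem self_improve (q : ℝ) (hq : 2 ≤ q) (N T : ℕ) (M : ℝ)
    (hM : ∀ b : ℕ → ℂ, (∀ n, ‖b n‖ ≤ 1) → Mom q N T b ≤ M) :
    ∃ w : ℕ → ℝ, (∀ n, 0 ≤ w n) ∧ ∑ n ∈ Icc N (2 * N), w n = 1 ∧
      ∀ b : ℕ → ℂ, (∀ n, ‖b n‖ ≤ 1) →
        Mom q N T b ≤ q * M * ∑ n ∈ Icc N (2 * N), w n * ‖b n‖ :=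
  weights (Icc 1 T) (Icc N (2 * N)) E (Icc_ne N) hq hM

theorem q1_to_weighted {q A : ℝ} (hq : 2 ≤ q) (h : Q1 q A) : Weighted q A := by
  refine h.mono (fun K => q * K) ?_
  intro ε K N T _ _ hK
  obtain ⟨w, hw0, hw1, hw⟩ := self_improve q hq N T _ hK
  refine ⟨w, hw0, hw1, fun b hb => (hw b hb).trans (le_of_eq ?_)⟩
  ring

theorem weighted_to_q1 {q A : ℝ} (h : Weighted q A) : Q1 q A := by
  refine h.mono (fun K => |K|) ?_
  rintro ε K N T _ hN ⟨w, hw0, hw1, hw⟩ b hb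
  have h1 : ∑ n ∈ Icc N (2 * N), w n * ‖b n‖ ≤ 1 := by
    rw [← hw1]
    exact sum_le_sum fun n _ => mul_le_of_le_one_right (hw0 n) (hb n)
  have h0 : 0 ≤ ∑ n ∈ Icc N (2 * N), w n * ‖b n‖ :=
    sum_nonneg fun n _ => mul_nonneg (hw0 n) (norm_nonneg _)
  have hr := rhs_nonneg q N T
  calc Mom q N T b ≤ K * (N : ℝ) ^ ε * rhs q N T * ∑ n ∈ Icc N (2 * N), w n * ‖b n‖ := hw b hb
    _ ≤ |K| * (N : ℝ) ^ ε * rhs q N T * ∑ n ∈ Icc N (2 * N), w n * ‖b n‖ := by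
        apply mul_le_mul_of_nonneg_right _ h0
        apply mul_le_mul_of_nonneg_right _ hr
        exact mul_le_mul_of_nonneg_right (le_abs_self K) (by positivity)
    _ ≤ |K| * (N : ℝ) ^ ε * rhs q N T * 1 := by
        apply mul_le_mul_of_nonneg_left h1
        positivity
    _ = _ := mul_one _

theorem q1_to_gain {q A : ℝ} (hq : 2 ≤ q) (h : Q1 q A) : Gain q A := by
  refine h.mono (fun K => q * K) ?_
  intro ε K N T _ _ hK S hS hne θ hθ
  obtain ⟨G, hGS, hc, hG⟩ := del (Icc 1 T) (Icc N (2 * N)) E S hS hne hq hθ hK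
  refine ⟨G, hGS, hc, fun b hb hbG => (hG b hb hbG).trans (le_of_eq ?_)⟩
  ring

open Classical in
theorem gain_to_deletion {q A η : ℝ} (hη1 : η < 1) (h : Gain q A) :
    Deletion η q A := by
  refine h.mono (fun K => |K| / (1 - η)) ?_
  intro ε K N T _ _ hK S hS hne
  obtain ⟨G, hGS, hc, hG⟩ := hK S hS hne (1 - η) (by linarith)
  have hSp : (0 : ℝ) < S.card := by exact_mod_cast hne.card_pos
  have h1η : 0 < 1 - η := by linarith
  refine ⟨G, hGS, ?_, fun R hR => ?_⟩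
  · rw [card_sdiff_of_subset hGS, Nat.cast_sub (card_le_card hGS)] at hc
    linarith
  · refine (hG (fun n => if n ∈ R then 1 else 0) (fun n => by split_ifs <;> simp)
      (fun n hn => by rw [if_neg (fun h => hn (hR h))])).trans ?_
    have h1 : (∑ n ∈ G, ‖(if n ∈ R then (1 : ℂ) else 0)‖) ≤ S.card := by
      calc (∑ n ∈ G, ‖(if n ∈ R then (1 : ℂ) else 0)‖) ≤ ∑ _n ∈ G, (1 : ℝ) := by
            apply sum_le_sum
            intro n _
            split_ifs <;> simp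
        _ = G.card := by simp
        _ ≤ S.card := by exact_mod_cast card_le_card hGS
    have h0 : 0 ≤ (∑ n ∈ G, ‖(if n ∈ R then (1 : ℂ) else 0)‖) := sum_nonneg fun _ _ => norm_nonneg _
    have hr := rhs_nonneg q N T
    have h2 : (∑ n ∈ G, ‖(if n ∈ R then (1 : ℂ) else 0)‖) / ((1 - η) * S.card) ≤ 1 / (1 - η) := by
      rw [div_le_div_iff₀ (by positivity) h1η]
      nlinarith
    calc K * (N : ℝ) ^ ε * rhs q N T *
          ((∑ n ∈ G, ‖(if n ∈ R then (1 : ℂ) else 0)‖) / ((1 - η) * S.card))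
        ≤ |K| * (N : ℝ) ^ ε * rhs q N T *
          ((∑ n ∈ G, ‖(if n ∈ R then (1 : ℂ) else 0)‖) / ((1 - η) * S.card)) := by
          apply mul_le_mul_of_nonneg_right _ (by positivity)
          apply mul_le_mul_of_nonneg_right _ hr
          exact mul_le_mul_of_nonneg_right (le_abs_self K) (by positivity)
      _ ≤ |K| * (N : ℝ) ^ ε * rhs q N T * (1 / (1 - η)) := by
          apply mul_le_mul_of_nonneg_left h2
          positivity
      _ = _ := by ring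

open Classical in
theorem deletion_to_q1 {q A η : ℝ} (hq : 2 ≤ q) (hη0 : 0 < η)
    (h : Deletion η q A) : Q1 q A := by
  intro ε hε
  obtain ⟨K, hK⟩ := h (ε / 2) (by linarith)
  have hq0 : 0 < q := by linarith
  have hε' : 0 < ε / (2 * q) := by positivity
  -- the number of steps
  set K₁ : ℝ := 1 / (ε / (2 * q)) with hK₁
  have hK₁0 : 0 < K₁ := by positivity
  refine ⟨((K₁ * 2 ^ (ε / (2 * q)) * 2 ^ (ε / (2 * q)) / η + 1) ^ q) * ((4 : ℝ) ^ q * |K|), ?_⟩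
  intro N T hN hNT hTA b hb
  have hN1 : (1 : ℝ) ≤ N := by exact_mod_cast hN
  have hN0 : (0 : ℝ) < N := by linarith
  set I := Icc N (2 * N) with hI
  have hIc : (I.card : ℝ) = N + 1 := by
    rw [hI, Nat.card_Icc]
    have : 2 * N + 1 - N = N + 1 := by omega
    rw [this]
    push_cast
    ring
  set B : ℝ := (4 : ℝ) ^ q * (|K| * (N : ℝ) ^ (ε / 2) * rhs q N T) with hB
  have hr := rhs_nonneg q N T
  have hB0 : 0 ≤ B := by positivity
  have hdel : ∀ S ⊆ I, S.Nonempty → ∃ G ⊆ S, η * S.card ≤ G.card ∧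
      ∀ f : ℕ → ℂ, (∀ n, ‖f n‖ ≤ 1) → (∀ n, n ∉ G → f n = 0) → Ph (Icc 1 T) I E q f ≤ B := by
    intro S hS hne
    obtain ⟨G, hGS, hc, hG⟩ := hK N T hN hNT hTA S hS hne
    refine ⟨G, hGS, hc, fun f hf hfG => ?_⟩
    refine of_sets (Icc 1 T) I E hq G ?_ f hf hfG
    intro R hR
    refine (hG R hR).trans ?_
    apply mul_le_mul_of_nonneg_right _ hr
    exact mul_le_mul_of_nonneg_right (le_abs_self K) (by positivity)
  set m : ℕ := ⌊Real.log (N + 1) / η⌋₊ + 1 with hm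
  have hlog0 : 0 ≤ Real.log (N + 1 : ℝ) := Real.log_nonneg (by linarith)
  have hmlt : Real.log (N + 1) / η < m := by
    rw [hm]
    push_cast
    exact Nat.lt_floor_add_one _
  have hη1 : η ≤ 1 := by
    obtain ⟨G, hGS, hc, -⟩ := hK N T hN hNT hTA I (Subset.refl _) (Icc_ne N)
    have h1 : (G.card : ℝ) ≤ I.card := by exact_mod_cast card_le_card hGS
    have h2 : (0 : ℝ) < I.card := by rw [hIc]; linarith
    have h3 : η * I.card ≤ 1 * I.card := by rw [one_mul]; exact hc.trans h1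
    exact le_of_mul_le_mul_right h3 h2
  have hstep : (I.card : ℝ) * (1 - η) ^ m < 1 := by
    have h1 : (1 - η) ^ m ≤ Real.exp (-(η * m)) := by
      calc (1 - η) ^ m ≤ (Real.exp (-η)) ^ m :=
            pow_le_pow_left₀ (by linarith) (by linarith [Real.add_one_le_exp (-η)]) m
        _ = Real.exp (-(η * m)) := by
            rw [← Real.exp_nat_mul]
            congr 1
            ring
    have h2 : Real.log (N + 1) < η * m := by
      rw [div_lt_iff₀ hη0] at hmlt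
      linarith
    rw [hIc]
    calc ((N : ℝ) + 1) * (1 - η) ^ m ≤ ((N : ℝ) + 1) * Real.exp (-(η * m)) :=
          mul_le_mul_of_nonneg_left h1 (by positivity)
      _ < ((N : ℝ) + 1) * Real.exp (-Real.log (N + 1)) := by
          apply mul_lt_mul_of_pos_left _ (by positivity)
          exact Real.exp_lt_exp.2 (by linarith)
      _ = 1 := by
          rw [Real.exp_neg, Real.exp_log (by positivity)]
          field_simp
  set b' : ℕ → ℂ := fun n => if n ∈ I then b n else 0 with hb'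
  have hbb : Mom q N T b = Ph (Icc 1 T) I E q b' := by
    rw [Mom_eq, ← hI]
    exact Ph_congr (Icc 1 T) E I q b b' (fun n hn => by simp only [hb']; rw [if_pos hn])
  obtain ⟨g, hg, hsum⟩ := iter (Icc 1 T) I E hq hB0 hdel m I (Subset.refl _) hstep b' (by
    intro n
    simp only [hb']
    split_ifs
    · exact hb n
    · simp) (by
    intro n hn
    simp only [hb']
    rw [if_neg hn])
  have hfin : Ph (Icc 1 T) I E q b' ≤ (m : ℝ) ^ q * B := by
    have := Ph_finsum (Icc 1 T) I E hq g hg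
    rwa [show (fun n => ∑ i, g i n) = b' from funext fun n => (hsum n).symm] at this
  rw [hbb]
  refine hfin.trans ?_
  -- bound for `m`
  have hmle : (m : ℝ) ≤ (K₁ * 2 ^ (ε / (2 * q)) * 2 ^ (ε / (2 * q)) / η + 1) *
      (N : ℝ) ^ (ε / (2 * q)) := by
    have h1 : (m : ℝ) ≤ Real.log (N + 1) / η + 1 := by
      rw [hm]
      push_cast
      have := Nat.floor_le (a := Real.log (N + 1) / η) (by positivity)
      linarith
    have h2 : Real.log (N + 1) ≤ K₁ * 2 ^ (ε / (2 * q)) * (N : ℝ) ^ (ε / (2 * q)) := by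
      have h3 := Real.log_le_rpow_div (x := (N : ℝ) + 1) (by linarith) hε'
      refine h3.trans ?_
      have h4 : ((N : ℝ) + 1) ^ (ε / (2 * q)) ≤ (2 * N) ^ (ε / (2 * q)) :=
        Real.rpow_le_rpow (by linarith) (by linarith) hε'.le
      rw [Real.mul_rpow (by norm_num) hN0.le] at h4
      rw [div_eq_mul_one_div, mul_comm, mul_assoc]
      exact mul_le_mul_of_nonneg_left h4 hK₁0.le
    have h5 : (1 : ℝ) ≤ (N : ℝ) ^ (ε / (2 * q)) := Real.one_le_rpow hN1 hε'.le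
    have h6 : (1 : ℝ) ≤ (2 : ℝ) ^ (ε / (2 * q)) := Real.one_le_rpow (by norm_num) hε'.le
    have h7 : Real.log (N + 1) ≤ K₁ * 2 ^ (ε / (2 * q)) * 2 ^ (ε / (2 * q)) *
        (N : ℝ) ^ (ε / (2 * q)) := by
      refine h2.trans ?_
      apply mul_le_mul_of_nonneg_right _ (by positivity)
      exact le_mul_of_one_le_right (by positivity) h6
    calc (m : ℝ) ≤ Real.log (N + 1) / η + 1 := h1
      _ ≤ (K₁ * 2 ^ (ε / (2 * q)) * 2 ^ (ε / (2 * q)) * (N : ℝ) ^ (ε / (2 * q))) / η +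
          (N : ℝ) ^ (ε / (2 * q)) := by
          apply add_le_add _ h5
          exact div_le_div_of_nonneg_right h7 hη0.le
      _ = _ := by ring
  have hC0 : 0 < K₁ * 2 ^ (ε / (2 * q)) * 2 ^ (ε / (2 * q)) / η + 1 := by positivity
  have hmq : (m : ℝ) ^ q ≤ (K₁ * 2 ^ (ε / (2 * q)) * 2 ^ (ε / (2 * q)) / η + 1) ^ q *
      (N : ℝ) ^ (ε / 2) := by
    calc (m : ℝ) ^ q ≤ ((K₁ * 2 ^ (ε / (2 * q)) * 2 ^ (ε / (2 * q)) / η + 1) *
          (N : ℝ) ^ (ε / (2 * q))) ^ q := Real.rpow_le_rpow (by positivity) hmle hq0.le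
      _ = _ := by
          rw [Real.mul_rpow hC0.le (by positivity), ← Real.rpow_mul hN0.le]
          congr 2
          field_simp
  calc (m : ℝ) ^ q * B ≤ ((K₁ * 2 ^ (ε / (2 * q)) * 2 ^ (ε / (2 * q)) / η + 1) ^ q *
        (N : ℝ) ^ (ε / 2)) * B := mul_le_mul_of_nonneg_right hmq hB0
    _ = (K₁ * 2 ^ (ε / (2 * q)) * 2 ^ (ε / (2 * q)) / η + 1) ^ q * ((4 : ℝ) ^ q * |K|) *
        ((N : ℝ) ^ (ε / 2) * (N : ℝ) ^ (ε / 2)) * rhs q N T := by
        rw [hB]; ring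
    _ = _ := by
        rw [← Real.rpow_add hN0]
        congr 3
        ring

/-- (1) For all `q ≥ 2`, `N`, `T`: a bound `M` for the `q`-th moment of all Dirichlet polynomials
with `|b n| ≤ 1` improves itself to `q M ∑ w n |b n|`, with a probability weight `w`.
(2) For all `q ≥ 2`, real `A` and `0 < η < 1` the assertion of Q1 for `q`, `A` is equivalent to the
weighted form, to the form with linear gain after deletion, and to the inequality for sums over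
the subsets of some `G ⊆ S`, `|G| ≥ η |S|`, for every nonempty `S ⊆ [N, 2N]`. -/
theorem result : ∀ q : ℝ, 2 ≤ q →
    (∀ (N T : ℕ) (M : ℝ), (∀ b : ℕ → ℂ, (∀ n, ‖b n‖ ≤ 1) → Mom q N T b ≤ M) →
      ∃ w : ℕ → ℝ, (∀ n, 0 ≤ w n) ∧ ∑ n ∈ Icc N (2 * N), w n = 1 ∧
        ∀ b : ℕ → ℂ, (∀ n, ‖b n‖ ≤ 1) →
          Mom q N T b ≤ q * M * ∑ n ∈ Icc N (2 * N), w n * ‖b n‖) ∧
    ∀ A η : ℝ, 0 < η → η < 1 →
      (Q1 q A ↔ Weighted q A) ∧ (Q1 q A ↔ Gain q A) ∧ (Q1 q A ↔ Deletion η q A) := by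
  intro q hq
  refine ⟨self_improve q hq, ?_⟩
  intro A η hη0 hη1
  have hDQ : Deletion η q A → Q1 q A := deletion_to_q1 hq hη0
  refine ⟨⟨q1_to_weighted hq, weighted_to_q1⟩, ⟨q1_to_gain hq, ?_⟩, ⟨?_, hDQ⟩⟩
  · intro h
    exact hDQ (gain_to_deletion hη1 h)
  · intro h
    exact gain_to_deletion hη1 (q1_to_gain hq h)

end Pool.Agent.Results.MP_2a1f0e_nt.SubsetDeletion
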